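import Pool.Agent.V8H47.ALT.Defs

/-!
# Restrictions of the store contents at the alternations
-/

namespace Pool.Agent.V8H47.ALC

open Pool.Agent.V8H47.MH Pool.Agent.V8H47.ALT

/-- Whenever a reachable configuration `c` has a step which leads from a universal to a
nonuniversal state or the other way round, the content of the store in `c`, read from the bottom to
the top, belongs to `R`. -/
def AltContents {α H Γ : Type} (M : APDA α H Γ) (R : Set (List Γ)) : Prop :=
  ∀ (w : List α) (c c' : PCfg M.Q H Γ), M.Reach w c → M.Step w c c' →
    ¬ (c.q ∈ M.U ↔ c'.q ∈ M.U) → c.st.reverse ∈ R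

/-- Level `k` of the alternation hierarchy of polynomial time two-way multihead pushdown automata
whose store is empty at each alternation. -/
def sigEmpty (k : ℕ) (α : Type) : Set (Language α) :=
  {L | ∃ (m : ℕ) (Γ : Type) (_ : Finite Γ) (M : APDA α (Fin m) Γ), M.Sig k ∧
    AltContents M {[]} ∧ M.altLang = L}

/-- The same for automata with pushdown symbols from `S` and auxiliary pushdown symbols, whose
store content at each alternation is a word in `R` (without auxiliary symbols). -/
def sigAt {S : Type} (R : Set (List S)) (k : ℕ) (α : Type) : Set (Language α) :=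
  {L | ∃ (m : ℕ) (Δ : Type) (_ : Finite Δ) (M : APDA α (Fin m) (S ⊕ Δ)), M.Sig k ∧
    AltContents M (List.map Sum.inl '' R) ∧ M.altLang = L}

end Pool.Agent.V8H47.ALC
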