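import Pool.Agent.V8H47.ALC.Thin
import Pool.Agent.V8H47.ALT.Main

/-!
# The dichotomy for the store contents at the alternations
-/

namespace Pool.Agent.V8H47.ALC

open Relation Pool.Agent.V8H47.MH Pool.Agent.V8H47.ALT

section emb

variable {α H Γ Γ' : Type}

/-- renaming the pushdown symbols in an action -/
def opMap (ι : Γ → Γ') : Op Γ → Op Γ'
  | Op.keep => Op.keep
  | Op.push g => Op.push (ι g)
  | Op.pop => Op.pop

theorem opMap_apply (ι : Γ → Γ') (op : Op Γ) (st : List Γ) :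
    (opMap ι op).apply (st.map ι) = (op.apply st).map ι := by
  cases op with
  | keep => rfl
  | push g => rfl
  | pop => simp [opMap, Op.apply]

/-- renaming the pushdown symbols -/
def embP (M : APDA α H Γ) (ι : Γ → Γ') : APDA α H Γ' where
  Q := M.Q
  finQ := M.finQ
  init := M.init
  acc := M.acc
  step q a g' := {x | ∃ g, g' = Option.map ι g ∧ ∃ t ∈ M.step q a g,
    x = (t.1, t.2.1, opMap ι t.2.2)}
  U := M.U

/-- the relation between the configurations -/
def EmR (M : APDA α H Γ) (ι : Γ → Γ') (b : PCfg M.Q H Γ) (a : PCfg (embP M ι).Q H Γ') : Prop :=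
  a.q = b.q ∧ a.pos = b.pos ∧ a.st = b.st.map ι

theorem embP_forth (M : APDA α H Γ) (ι : Γ → Γ') (w : List α) {b b' : PCfg M.Q H Γ}
    {a : PCfg (embP M ι).Q H Γ'} (h : EmR M ι b a) (hs : M.Step w b b') :
    ∃ a', (embP M ι).Step w a a' ∧ EmR M ι b' a' := by
  obtain ⟨q, p, st⟩ := b
  obtain ⟨q', p', st'⟩ := a
  obtain ⟨h1, h2, h3⟩ := h
  simp only at h1 h2 h3
  subst h1 h2 h3
  obtain ⟨t, ht, rfl⟩ := hs
  exact ⟨_, ⟨_, ⟨st.head?, by simp [List.head?_map], t, ht, rfl⟩, rfl⟩, rfl, rfl,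
    opMap_apply _ _ _⟩

theorem embP_back (M : APDA α H Γ) {ι : Γ → Γ'} (hι : Function.Injective ι) (w : List α)
    {b : PCfg M.Q H Γ} {a a' : PCfg (embP M ι).Q H Γ'} (h : EmR M ι b a)
    (hs : (embP M ι).Step w a a') : ∃ b', M.Step w b b' ∧ EmR M ι b' a' := by
  obtain ⟨q, p, st⟩ := b
  obtain ⟨q', p', st'⟩ := a
  obtain ⟨h1, h2, h3⟩ := h
  simp only at h1 h2 h3
  subst h1 h2 h3
  obtain ⟨x, ⟨g, hg, t, ht, rfl⟩, rfl⟩ := hs
  simp only [List.head?_map] at hg
  have hg' : st.head? = g := Option.map_injective hι hg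
  subst hg'
  exact ⟨_, ⟨t, ht, rfl⟩, rfl, rfl, opMap_apply _ _ _⟩

theorem embP_sim (M : APDA α H Γ) {ι : Γ → Γ'} (hι : Function.Injective ι) (w : List α) :
    ASim (M.Step w) (fun c => c.q ∈ M.U) (fun c => c.q ∈ M.acc)
      ((embP M ι).Step w) (fun c => c.q ∈ (embP M ι).U) (fun c => c.q ∈ (embP M ι).acc)
      (EmR M ι) (fun _ => True) (fun _ => 0) 0 := by
  refine bisim _ ?_ ?_ ?_ ?_
  · rintro a b ⟨h1, _⟩
    rw [h1]; rfl
  · rintro a b ⟨h1, _⟩
    rw [h1]; rfl
  · exact fun a b a' h hs => embP_forth M ι w h hs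
  · exact fun a b b' h hs => embP_back M hι w h hs

theorem embP_start (M : APDA α H Γ) (ι : Γ → Γ') : EmR M ι M.start (embP M ι).start :=
  ⟨rfl, rfl, rfl⟩

theorem embP_lang (M : APDA α H Γ) {ι : Γ → Γ'} (hι : Function.Injective ι) :
    (embP M ι).altLang = M.altLang := by
  ext w
  exact ((embP_sim M hι w).iff_acc (embP_start M ι)).symm

theorem embP_sig (M : APDA α H Γ) {ι : Γ → Γ'} (hι : Function.Injective ι) {k : ℕ}
    (h : M.Sig k) : (embP M ι).Sig k := by
  obtain ⟨h0, c, hc⟩ := h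
  refine ⟨h0, c, fun w t j x hx => ?_⟩
  obtain ⟨t', a, h1, _, h3⟩ := (embP_sim M hι w).run (embP_start M ι) le_rfl hx
  have := hc w t' j a h1
  exact ⟨by omega, this.2⟩

theorem embP_alt (M : APDA α H Γ) {ι : Γ → Γ'} (hι : Function.Injective ι) {R : Set (List Γ)}
    (h : AltContents M R) : AltContents (embP M ι) (List.map ι '' R) := by
  intro w c c' hc hs hU
  rw [PDA.reach_iff] at hc
  obtain ⟨b, h1, h2⟩ := simulate (s := M.Step w) (fun a b => EmR M ι b a)
    (fun a b a' hP hs => embP_back M hι w hP hs) (embP_start M ι) hc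
  obtain ⟨b', h3, h4⟩ := embP_back M hι w h2 hs
  have h5 := h w b b' ((PDA.reach_iff _ _ _).2 h1) h3 (by
    rw [← h2.1, ← h4.1]; exact hU)
  exact ⟨_, h5, by rw [h2.2.2, List.map_reverse]⟩

end emb

theorem AltContents.mono {α H Γ : Type} {M : APDA α H Γ} {R R' : Set (List Γ)}
    (h : AltContents M R) (hR : R ⊆ R') : AltContents M R' :=
  fun w c c' hc hs hU => hR (h w c c' hc hs hU)

/-- **The dichotomy for the contents at the alternations.** -/
theorem at_dichotomy {S : Type} [Finite S] {R : Language S} (hreg : R.IsRegular)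
    (h0 : [] ∈ R) (hpre : ∀ u v, u ++ v ∈ R → u ∈ R) :
    (PolyGrowth (R : Set (List S)) → ∀ (k : ℕ) (α : Type),
      sigAt (R : Set (List S)) k α = sigEmpty k α) ∧
    (¬ PolyGrowth (R : Set (List S)) → ∀ (k : ℕ) (α : Type),
      sigAt (R : Set (List S)) k α = sigPDA k α) := by
  obtain ⟨σ, _, A, rfl⟩ := hreg
  have hst : A.start ∈ A.accept := h0
  constructor
  · intro hp k α
    have hth : ¬ Thick (A.accepts : Set (List S)) := fun h => not_polyGrowth_of_thick h hp
    apply Set.Subset.antisymm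
    · rintro L ⟨m, Δ, _, M, h1, h2, rfl⟩
      exact thin_at (A := extA Δ A) (thinA_ext (thinA_of_not_thick hst hth)) ⟨_, hst, rfl⟩ h1 h2
        (fun st hst' => good_ext hpre hst')
    · rintro L ⟨m, Γ, _, M, h1, h2, rfl⟩
      refine ⟨m, Γ, inferInstance, embP M Sum.inr, embP_sig M Sum.inr_injective h1,
        (embP_alt M Sum.inr_injective h2).mono ?_, embP_lang M Sum.inr_injective⟩
      rintro _ ⟨x, hx, rfl⟩
      have : x = [] := hx
      subst this
      exact ⟨[], h0, rfl⟩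
  · intro hp k α
    have hth : Thick (A.accepts : Set (List S)) := by
      by_contra hcon
      exact hp (polyGrowth_of_thin (thinA_of_not_thick hst hcon))
    apply Set.Subset.antisymm
    · rintro L ⟨m, Δ, _, M, h1, _, rfl⟩
      exact ⟨m, S ⊕ Δ, inferInstance, M, h1, rfl⟩
    · rintro L ⟨m, Δ, _, M, h1, rfl⟩
      obtain ⟨M', h2, h3, h4⟩ := thick_alt M h1 hth
      refine ⟨m, Empty, inferInstance, embP M' Sum.inl, embP_sig M' Sum.inl_injective h2,
        embP_alt M' Sum.inl_injective (fun w c c' hc _ _ => h3 w c hc),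
        (embP_lang M' Sum.inl_injective).trans h4⟩

end Pool.Agent.V8H47.ALC
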