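import Pool.Agent.V8H47.ALC.Defs
import Pool.Agent.V8H47.ALT.Thin

/-!
# Multihead pushdown automata with polynomially bounded counters
-/

namespace Pool.Agent.V8H47.ALC

open Relation Pool.Agent.V8H47.MH Pool.Agent.V8H47.ALT

/-- Multihead pushdown automata with counters indexed by `J`. -/
structure SCM (α H J Γ : Type) where
  Q : Type
  finQ : Finite Q
  init : Q
  acc : Set Q
  step : Q → (H → Sym α) → (J → Prop) → Option Γ → Set (Q × (H → Dir) × (J → Dir) × Op Γ)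

structure SCfg (Q H J Γ : Type) where
  q : Q
  pos : H → ℕ
  cnt : J → ℕ
  st : List Γ

namespace SCM

variable {α H J Γ : Type} (M : SCM α H J Γ)

/-- a step, with all the counters remaining below `N` -/
def Step (N : ℕ) (w : List α) (c c' : SCfg M.Q H J Γ) : Prop :=
  ∃ t ∈ M.step c.q (fun h => symAt w (c.pos h)) (fun j => c.cnt j = 0) c.st.head?,
    (∀ j, t.2.2.1 j = Dir.R → c.cnt j + 1 < N) ∧
    c' = ⟨t.1, fun h => (t.2.1 h).move w.length (c.pos h), fun j => (t.2.2.1 j).cmove (c.cnt j),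
      t.2.2.2.apply c.st⟩

/-- The pushdown automaton which simulates the counters by `c` heads each. -/
noncomputable def toPDA [Finite J] (c : ℕ) : PDA α (H ⊕ J × Fin c) Γ where
  Q := M.Q × (J → Fin c → Bool)
  finQ := by have := M.finQ; infer_instance
  init := (M.init, fun _ _ => true)
  acc := {q | q.1 ∈ M.acc}
  step q a g := {x | ∃ t ∈ M.step q.1 (fun h => a (Sum.inl h))
      (fun j => ∀ i, a (Sum.inr (j, i)) = Sym.left) g,
    (∀ j, t.2.2.1 j = Dir.R → ¬ ∀ i, atEnd (q.2 j i) (a (Sum.inr (j, i)))) ∧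
    x = ((t.1, fun j => CM.newDir (t.2.2.1 j) (q.2 j) (fun i => a (Sum.inr (j, i)))),
      Sum.elim t.2.1 (fun z => CM.newMove (t.2.2.1 z.1) (q.2 z.1)
        (fun i => a (Sum.inr (z.1, i))) z.2), t.2.2.2)}

/-- The configuration of the pushdown automaton which represents a counter configuration. -/
def enc [Finite J] (c : ℕ) (w : List α) (x : SCfg M.Q H J Γ) :
    PCfg (M.toPDA c).Q (H ⊕ J × Fin c) Γ :=
  ⟨(x.q, fun j => dirs c (w.length + 2) (x.cnt j)),
    Sum.elim x.pos (fun z => tup c (w.length + 2) (x.cnt z.1) z.2), x.st⟩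

theorem step_enc [Finite J] (c : ℕ) (w : List α) (x : SCfg M.Q H J Γ)
    (hx : ∀ j, x.cnt j < (w.length + 2) ^ c) (y : PCfg (M.toPDA c).Q (H ⊕ J × Fin c) Γ) :
    (M.toPDA c).Step w (M.enc c w x) y ↔
      ∃ x', M.Step ((w.length + 2) ^ c) w x x' ∧ y = M.enc c w x' := by
  have e1 : (fun j => ∀ i, symAt w ((M.enc c w x).pos (Sum.inr (j, i))) = Sym.left) =
      (fun j => x.cnt j = 0) := by
    funext j
    exact propext (zero_iff w c _ (hx j))
  have e2 : ∀ j, (∀ i, atEnd ((M.enc c w x).q.2 j i) (symAt w ((M.enc c w x).pos (Sum.inr (j, i)))))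
      ↔ x.cnt j + 1 = (w.length + 2) ^ c := fun j => atEnd_all_iff w c _ (hx j)
  have key : ∀ t : M.Q × (H → Dir) × (J → Dir) × Op Γ,
      (∀ j, t.2.2.1 j = Dir.R → x.cnt j + 1 < (w.length + 2) ^ c) →
      (⟨(t.1, fun j => CM.newDir (t.2.2.1 j) ((M.enc c w x).q.2 j)
          (fun i => symAt w ((M.enc c w x).pos (Sum.inr (j, i))))),
        fun h => (Sum.elim t.2.1 (fun z : J × Fin c => CM.newMove (t.2.2.1 z.1)
          ((M.enc c w x).q.2 z.1)
          (fun i => symAt w ((M.enc c w x).pos (Sum.inr (z.1, i)))) z.2) h : Dir).move w.length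
          ((M.enc c w x).pos h), t.2.2.2.apply x.st⟩ : PCfg (M.toPDA c).Q (H ⊕ J × Fin c) Γ) =
      M.enc c w ⟨t.1, fun h => (t.2.1 h).move w.length (x.pos h),
        fun j => (t.2.2.1 j).cmove (x.cnt j), t.2.2.2.apply x.st⟩ := by
    intro t ht
    unfold enc
    simp only [PCfg.mk.injEq, and_true]
    constructor
    · refine congrArg (Prod.mk t.1) ?_
      funext j
      exact CM.newDir_spec w c (x.cnt j) (t.2.2.1 j) (hx j) (ht j)
    · funext h
      cases h with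
      | inl h => rfl
      | inr z => exact CM.newMove_spec w c (x.cnt z.1) (t.2.2.1 z.1) (hx z.1) (ht z.1) z.2
  constructor
  · rintro ⟨u, ⟨t, ht, hR, rfl⟩, rfl⟩
    have hR' : ∀ j, t.2.2.1 j = Dir.R → x.cnt j + 1 < (w.length + 2) ^ c := by
      intro j hj
      have h1 := hR j hj
      rw [e2 j] at h1
      have := hx j
      omega
    rw [e1] at ht
    exact ⟨_, ⟨t, ht, hR', rfl⟩, key t hR'⟩
  · rintro ⟨x', ⟨t, ht, hR, rfl⟩, rfl⟩
    refine ⟨_, ⟨t, ?_, ?_, rfl⟩, (key t hR).symm⟩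
    · rw [e1]; exact ht
    · intro j hj h1
      have := (e2 j).1 h1
      have := hR j hj
      omega

end SCM

/-! ### Renaming the heads of a pushdown automaton -/

section reindex

variable {α H H' Γ : Type}

/-- Renaming the heads. -/
def reP (M : APDA α H Γ) (e : H ≃ H') : APDA α H' Γ where
  Q := M.Q
  finQ := M.finQ
  init := M.init
  acc := M.acc
  step q a g := {x | ∃ t ∈ M.step q (a ∘ e) g, x = (t.1, t.2.1 ∘ e.symm, t.2.2)}
  U := M.U

/-- the relation between the configurations -/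
def ReR (M : APDA α H Γ) (e : H ≃ H') (b : PCfg M.Q H Γ) (a : PCfg (reP M e).Q H' Γ) : Prop :=
  a.q = b.q ∧ a.pos = b.pos ∘ e.symm ∧ a.st = b.st

theorem reP_forth (M : APDA α H Γ) (e : H ≃ H') (w : List α) {b b' : PCfg M.Q H Γ}
    {a : PCfg (reP M e).Q H' Γ} (h : ReR M e b a) (hs : M.Step w b b') :
    ∃ a', (reP M e).Step w a a' ∧ ReR M e b' a' := by
  obtain ⟨q, p, st⟩ := b
  obtain ⟨q', p', st'⟩ := a
  obtain ⟨h1, h2, h3⟩ := h
  simp only at h1 h2 h3
  subst h1 h2 h3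
  obtain ⟨t, ht, rfl⟩ := hs
  refine ⟨⟨t.1, fun h => (t.2.1 (e.symm h)).move w.length (p (e.symm h)), t.2.2.apply st'⟩,
    ⟨(t.1, t.2.1 ∘ e.symm, t.2.2), ⟨t, ?_, rfl⟩, rfl⟩, rfl, ?_, rfl⟩
  · convert ht using 2
    funext h
    simp
  · funext h
    simp

theorem reP_back (M : APDA α H Γ) (e : H ≃ H') (w : List α) {b : PCfg M.Q H Γ}
    {a a' : PCfg (reP M e).Q H' Γ} (h : ReR M e b a) (hs : (reP M e).Step w a a') :
    ∃ b', M.Step w b b' ∧ ReR M e b' a' := by
  obtain ⟨q, p, st⟩ := b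
  obtain ⟨q', p', st'⟩ := a
  obtain ⟨h1, h2, h3⟩ := h
  simp only at h1 h2 h3
  subst h1 h2 h3
  obtain ⟨t, ⟨y, hy, rfl⟩, rfl⟩ := hs
  refine ⟨⟨y.1, fun h => (y.2.1 h).move w.length (p h), y.2.2.apply st'⟩, ⟨y, ?_, rfl⟩, rfl,
    ?_, rfl⟩
  · convert hy using 2
    funext h
    simp
  · funext h
    simp

theorem reP_sim (M : APDA α H Γ) (e : H ≃ H') (w : List α) :
    ASim (M.Step w) (fun c => c.q ∈ M.U) (fun c => c.q ∈ M.acc)
      ((reP M e).Step w) (fun c => c.q ∈ (reP M e).U) (fun c => c.q ∈ (reP M e).acc)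
      (ReR M e) (fun _ => True) (fun _ => 0) 0 := by
  refine bisim _ ?_ ?_ ?_ ?_
  · rintro a b ⟨h1, _⟩
    rw [h1]; rfl
  · rintro a b ⟨h1, _⟩
    rw [h1]; rfl
  · exact fun a b a' h hs => reP_forth M e w h hs
  · exact fun a b b' h hs => reP_back M e w h hs

theorem reP_start (M : APDA α H Γ) (e : H ≃ H') : ReR M e M.start (reP M e).start :=
  ⟨rfl, rfl, rfl⟩

theorem reP_lang (M : APDA α H Γ) (e : H ≃ H') : (reP M e).altLang = M.altLang := by
  ext w
  exact ((reP_sim M e w).iff_acc (reP_start M e)).symm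

theorem reP_sig (M : APDA α H Γ) (e : H ≃ H') {k : ℕ} (h : M.Sig k) : (reP M e).Sig k := by
  obtain ⟨h0, c, hc⟩ := h
  refine ⟨h0, c, fun w t j x hx => ?_⟩
  obtain ⟨t', a, h1, _, h3⟩ := (reP_sim M e w).run (reP_start M e) le_rfl hx
  have := hc w t' j a h1
  exact ⟨by omega, this.2⟩

theorem reP_alt (M : APDA α H Γ) (e : H ≃ H') {R : Set (List Γ)} (h : AltContents M R) :
    AltContents (reP M e) R := by
  intro w c c' hc hs hU
  rw [PDA.reach_iff] at hc
  obtain ⟨b, h1, h2⟩ := simulate (s := M.Step w) (fun a b => ReR M e b a)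
    (fun a b a' hP hs => reP_back M e w hP hs) (reP_start M e) hc
  obtain ⟨b', h3, h4⟩ := reP_back M e w h2 hs
  have h5 := h w b b' ((PDA.reach_iff _ _ _).2 h1) h3 (by
    rw [← h2.1, ← h4.1]; exact hU)
  rw [h2.2.2]
  exact h5

end reindex

end Pool.Agent.V8H47.ALC
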