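import Pool.Agent.V8H47.ALC.SCM

/-!
# Thin contents at the alternations

The longest prefix of the store content which belongs to the thin language is described by
counters, the rest remains in the store.
-/

namespace Pool.Agent.V8H47.ALC

open Relation Pool.Agent.V8H47.MH Pool.Agent.V8H47.ALT

/-! ### Auxiliary symbols -/

section ext

variable {S Δ σ : Type}

/-- the automaton with auxiliary symbols -/
def extA (Δ : Type) (A : DFA S σ) : DFA (S ⊕ Δ) (Option σ) where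
  step s g := match s, g with
    | some s, Sum.inl a => some (A.step s a)
    | _, _ => none
  start := some A.start
  accept := {s | ∃ t ∈ A.accept, s = some t}

variable {A : DFA S σ}

theorem ext_step {s : σ} {g : S ⊕ Δ} (h : (extA Δ A).step (some s) g ∈ (extA Δ A).accept) :
    ∃ a, g = Sum.inl a ∧ A.step s a ∈ A.accept := by
  obtain ⟨t, ht, h⟩ := h
  cases g with
  | inl a =>
    have h' : some (A.step s a) = some t := h
    cases h'
    exact ⟨a, rfl, ht⟩
  | inr d =>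
    have h' : (none : Option σ) = some t := h
    cases h'

theorem conn_ext {s : σ} {t' : Option σ} (h : conn (extA Δ A) (some s) t') :
    ∃ t, t' = some t ∧ conn A s t := by
  unfold conn at h
  induction h with
  | refl => exact ⟨s, rfl, .refl⟩
  | tail _ he ih =>
    obtain ⟨t, rfl, ht⟩ := ih
    obtain ⟨g, rfl, hg⟩ := he
    obtain ⟨a, rfl, ha⟩ := ext_step hg
    exact ⟨A.step t a, rfl, ReflTransGen.tail ht ⟨a, rfl, ha⟩⟩

theorem intl_ext {s : σ} {g : S ⊕ Δ} (h : intl (extA Δ A) (some s) g) :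
    ∃ a, g = Sum.inl a ∧ intl A s a := by
  obtain ⟨a, rfl, ha⟩ := ext_step h.1
  obtain ⟨t, h1, h2⟩ := conn_ext (s := A.step s a) h.2
  cases h1
  exact ⟨a, rfl, ha, h2⟩

theorem thinA_ext (h : ThinA A) : ThinA (extA Δ A) := by
  intro s' hs g1 g2 h1 h2
  obtain ⟨s, rfl, hs'⟩ := conn_ext (s := A.start) hs
  obtain ⟨a, rfl, ha⟩ := intl_ext h1
  obtain ⟨b, rfl, hb⟩ := intl_ext h2
  rw [h s hs' a b ha hb]

theorem evalFrom_ext (x : List S) : ∀ s : σ,
    (extA Δ A).evalFrom (some s) (x.map Sum.inl) = some (A.evalFrom s x) := by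
  induction x with
  | nil => intro s; rfl
  | cons a x ih => intro s; exact ih (A.step s a)

theorem good_ext (hpre : ∀ u v, u ++ v ∈ A.accepts → u ∈ A.accepts) {st : List (S ⊕ Δ)}
    (h : st.reverse ∈ List.map Sum.inl '' (A.accepts : Set (List S))) :
    Good (extA Δ A) st := by
  obtain ⟨x, hx, he⟩ := h
  intro st' hst'
  have h1 : st'.reverse <+: x.map Sum.inl := by
    rw [he]
    exact List.reverse_prefix.2 hst'
  obtain ⟨v, hv⟩ := h1
  obtain ⟨p, q, h2, h3, _⟩ := List.append_eq_map_iff.1 hv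
  subst h2
  have h4 : (extA Δ A).eval st'.reverse = some (A.eval p) := by
    rw [← h3]
    exact evalFrom_ext p A.start
  rw [h4]
  exact ⟨_, hpre p q hx, rfl⟩

end ext

/-! ### The simulation -/

section sim

variable {α H Γ σ : Type}

theorem good_cons {A : DFA Γ σ} {g : Γ} {st : List Γ} :
    Good A (g :: st) ↔ Good A st ∧ A.step (A.eval st.reverse) g ∈ A.accept := by
  constructor
  · intro h
    exact ⟨h.tail, h.step_mem⟩
  · rintro ⟨h1, h2⟩ st' hst'
    rcases List.suffix_cons_iff.1 hst' with rfl | h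
    · rw [eval_cons]; exact h2
    · exact h1 st' h

theorem forget_state {A : DFA Γ σ} (st : List Γ) :
    (forget (enc A st)).1.2 = A.eval st.reverse := enc_state st

/-- the action is performed on the counters -/
def OnE (A : DFA Γ σ) (g : Option Γ) (E : Shp Γ σ) (op : Op Γ) : Prop :=
  g = none ∧ ∀ g', op = Op.push g' → A.step E.1.2 g' ∈ A.accept

open Classical in
/-- the top symbol of the simulated store -/
noncomputable def topS (A : DFA Γ σ) (z : Prop) (g : Option Γ) (E : Shp Γ σ) : Option Γ :=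
  if g = none then shTop A z E else g

/-- the shapes -/
abbrev SH (Γ σ : Type) : Type := {E : Shp Γ σ // E.2.length < Nat.card σ}

/-- the actions which correspond to an action -/
def Cor [Finite σ] (A : DFA Γ σ) {Q : Type} (E : SH Γ σ) (z : Fin (Nat.card σ) → Prop)
    (g : Option Γ) (t : Q × (H → Dir) × Op Γ)
    (u : (Q × SH Γ σ) × (H → Dir) × (Fin (Nat.card σ) → Dir) × Op Γ) : Prop :=
  u.1.1 = t.1 ∧ u.2.1 = t.2.1 ∧
    ((OnE A g E.1 t.2.2 ∧ u.1.2.1 = (shOp A (z ⟨E.1.2.length, E.2⟩) E.1 t.2.2).1 ∧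
      u.2.2.1 = (fun j : Fin (Nat.card σ) => if (j : ℕ) = E.1.2.length then
        (shOp A (z ⟨E.1.2.length, E.2⟩) E.1 t.2.2).2 else Dir.S) ∧ u.2.2.2 = Op.keep) ∨
    (¬ OnE A g E.1 t.2.2 ∧ u.1.2 = E ∧ u.2.2.1 = (fun _ => Dir.S) ∧ u.2.2.2 = t.2.2))

/-- the machine with counters and a store -/
noncomputable def thinS [Finite σ] [Finite Γ] (A : DFA Γ σ) (M : APDA α H Γ) :
    SCM α H (Fin (Nat.card σ)) Γ where
  Q := M.Q × SH Γ σ
  finQ := by
    have := M.finQ
    have := finite_shp (Γ := Γ) (σ := σ) (Nat.card σ)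
    infer_instance
  init := (M.init, ⟨((none, A.start), []), by
    have : Nonempty σ := ⟨A.start⟩
    exact Nat.card_pos⟩)
  acc := {q | q.1 ∈ M.acc}
  step q a z g := {u | ∃ t ∈ M.step q.1 a (topS A (z ⟨q.2.1.2.length, q.2.2⟩) g q.2.1),
    Cor A q.2 z g t u}

/-- the rest begins with a symbol which leaves the language -/
def Rest (A : DFA Γ σ) (y st0 : List Γ) : Prop :=
  y = [] ∨ ∃ y0 g, y = y0 ++ [g] ∧ ¬ Good A (g :: st0)

/-- The simulation relation. -/
def RelS [Finite σ] [Finite Γ] (A : DFA Γ σ) (M : APDA α H Γ) (w : List α)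
    (c : PCfg M.Q H Γ) (x : SCfg (thinS A M).Q H (Fin (Nat.card σ)) Γ) : Prop :=
  M.Reach w c ∧ x.q.1 = c.q ∧ x.pos = c.pos ∧ ∃ st0, c.st = x.st ++ st0 ∧ Good A st0 ∧
    Rest A x.st st0 ∧ x.q.2.1 = forget (enc A st0) ∧
    x.cnt = fun j : Fin (Nat.card σ) => cnts A st0 j

variable [Finite σ] [Finite Γ] {A : DFA Γ σ} {M : APDA α H Γ} {w : List α}

theorem rel_top (hT : ThinA A) {c : PCfg M.Q H Γ}
    {x : SCfg (thinS A M).Q H (Fin (Nat.card σ)) Γ} (hP : RelS A M w c x) :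
    topS A (x.cnt ⟨x.q.2.1.2.length, x.q.2.2⟩ = 0) x.st.head? x.q.2.1 = c.st.head? := by
  obtain ⟨⟨q, E, hE⟩, pos, cn, y⟩ := x
  obtain ⟨_, h1, h2, st0, h3, hg, hr, h5, h6⟩ := hP
  simp only at h1 h2 h3 h5 h6 hr
  subst h5 h6
  rw [h3]
  have hz : (cnts A st0 ((⟨(forget (enc A st0)).2.length, hE⟩ : Fin (Nat.card σ)) : ℕ) = 0) =
      ((enc A st0).1.2.2 = 0) := by
    simp only [forget_length, cnts_top]
  cases y with
  | nil =>
    simp only [topS, List.head?_nil, if_true, List.nil_append]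
    rw [hz, shTop_spec hT hg]
  | cons b y => simp [topS]

theorem rest_apply {y st0 : List Γ} {op : Op Γ} (hg : Good A st0) (hr : Rest A y st0)
    (h : ¬ OnE A y.head? (forget (enc A st0)) op) :
    op.apply (y ++ st0) = op.apply y ++ st0 ∧ Rest A (op.apply y) st0 := by
  cases y with
  | nil =>
    cases op with
    | keep => exact absurd ⟨rfl, fun g' h => by cases h⟩ h
    | pop => exact absurd ⟨rfl, fun g' h => by cases h⟩ h
    | push g =>
      refine ⟨rfl, Or.inr ⟨[], g, rfl, fun hc => h ⟨rfl, fun g' hg' => ?_⟩⟩⟩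
      cases hg'
      rw [forget_state]
      exact (good_cons.1 hc).2
  | cons b y =>
    obtain ⟨y0, g, h1, h2⟩ : ∃ y0 g, b :: y = y0 ++ [g] ∧ ¬ Good A (g :: st0) := by
      rcases hr with h | h
      · cases h
      · exact h
    cases op with
    | keep => exact ⟨rfl, Or.inr ⟨y0, g, h1, h2⟩⟩
    | push g' => exact ⟨rfl, Or.inr ⟨g' :: y0, g, by simp [Op.apply, h1], h2⟩⟩
    | pop =>
      refine ⟨rfl, ?_⟩
      cases y0 with
      | nil =>
        simp only [List.nil_append, List.cons.injEq] at h1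
        exact Or.inl (by simp [Op.apply, h1.2])
      | cons b' y0 =>
        simp only [List.cons_append, List.cons.injEq] at h1
        exact Or.inr ⟨y0, g, by simp [Op.apply, h1.2], h2⟩

theorem good_apply {st0 : List Γ} {op : Op Γ} {g : Option Γ} (hg : Good A st0)
    (h : OnE A g (forget (enc A st0)) op) : Good A (op.apply st0) := by
  cases op with
  | keep => exact hg
  | push g' =>
    refine good_cons.2 ⟨hg, ?_⟩
    have := h.2 g' rfl
    rwa [forget_state] at this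
  | pop =>
    cases st0 with
    | nil => exact hg
    | cons a st0 => exact hg.tail

theorem rel_next (hT : ThinA A) {c : PCfg M.Q H Γ}
    {x : SCfg (thinS A M).Q H (Fin (Nat.card σ)) Γ} (hP : RelS A M w c x)
    {t : M.Q × (H → Dir) × Op Γ} (ht : t ∈ M.step c.q (fun h => symAt w (c.pos h)) c.st.head?)
    {u : (M.Q × SH Γ σ) × (H → Dir) × (Fin (Nat.card σ) → Dir) × Op Γ}
    (hu : Cor A x.q.2 (fun j => x.cnt j = 0) x.st.head? t u) :
    RelS A M w ⟨t.1, fun h => (t.2.1 h).move w.length (c.pos h), t.2.2.apply c.st⟩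
      ⟨u.1, fun h => (u.2.1 h).move w.length (x.pos h), fun j => (u.2.2.1 j).cmove (x.cnt j),
        u.2.2.2.apply x.st⟩ := by
  obtain ⟨⟨q, E, hE⟩, pos, cn, y⟩ := x
  obtain ⟨h0, h1, h2, st0, h3, hg, hr, h5, h6⟩ := hP
  simp only at h1 h2 h3 h5 h6 hr hu
  subst h5 h6 h2
  obtain ⟨⟨q', E'⟩, d, e, op⟩ := u
  obtain ⟨u1, u2, u3⟩ := hu
  simp only at u1 u2 u3
  subst u1 u2
  refine ⟨reach_step h0 ⟨t, ht, rfl⟩, rfl, rfl, ?_⟩
  simp only
  have hz : (cnts A st0 ((⟨(forget (enc A st0)).2.length, hE⟩ : Fin (Nat.card σ)) : ℕ) = 0) =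
      ((enc A st0).1.2.2 = 0) := by
    simp only [forget_length, cnts_top]
  rcases u3 with ⟨hE1, u4, rfl, rfl⟩ | ⟨hE1, rfl, rfl, rfl⟩
  · have hy : y = [] := List.head?_eq_none_iff.1 hE1.1
    subst hy
    have hsp := shOp_spec hT t.2.2 hg
    refine ⟨t.2.2.apply st0, by rw [h3]; rfl, good_apply hg hE1, Or.inl rfl, ?_, ?_⟩
    · rw [u4, hz]
      exact hsp.1
    · funext j
      have h7 := hsp.2 j
      rw [← forget_length] at h7
      simp only
      rw [hz]
      exact h7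
  · have h7 := rest_apply hg hr hE1
    refine ⟨st0, by rw [h3]; exact h7.1, hg, h7.2, rfl, ?_⟩
    funext j
    rfl

theorem exists_cor (hT : ThinA A) {c : PCfg M.Q H Γ}
    {x : SCfg (thinS A M).Q H (Fin (Nat.card σ)) Γ} (hP : RelS A M w c x)
    (t : M.Q × (H → Dir) × Op Γ) :
    ∃ u : (M.Q × SH Γ σ) × (H → Dir) × (Fin (Nat.card σ) → Dir) × Op Γ,
      Cor A x.q.2 (fun j => x.cnt j = 0) x.st.head? t u := by
  obtain ⟨⟨q, E, hE⟩, pos, cn, y⟩ := x
  obtain ⟨h0, h1, h2, st0, h3, hg, hr, h5, h6⟩ := hP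
  simp only at h1 h2 h3 h5 h6 hr
  subst h5 h6 h2
  have hz : (cnts A st0 ((⟨(forget (enc A st0)).2.length, hE⟩ : Fin (Nat.card σ)) : ℕ) = 0) =
      ((enc A st0).1.2.2 = 0) := by
    simp only [forget_length, cnts_top]
  by_cases hE1 : OnE A y.head? (forget (enc A st0)) t.2.2
  · have hsp := shOp_spec hT t.2.2 hg
    have hlen := enc_length_lt (good_apply hg hE1)
    refine ⟨((t.1, ⟨forget (enc A (t.2.2.apply st0)), by rw [forget_length]; exact hlen⟩),
      t.2.1, _, Op.keep), rfl, rfl, Or.inl ⟨hE1, ?_, rfl, rfl⟩⟩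
    simp only
    rw [hz]
    exact hsp.1.symm
  · exact ⟨((t.1, _), t.2.1, _, t.2.2), rfl, rfl, Or.inr ⟨hE1, rfl, rfl, rfl⟩⟩

theorem rel_cnt {c : PCfg M.Q H Γ} {x : SCfg (thinS A M).Q H (Fin (Nat.card σ)) Γ}
    (hP : RelS A M w c x) (j : Fin (Nat.card σ)) : x.cnt j ≤ c.st.length := by
  obtain ⟨_, _, _, st0, h3, _, _, _, h6⟩ := hP
  rw [h6, h3, List.length_append]
  have := cnts_le (A := A) st0 j
  simp only
  omega

theorem thinS_sim (hT : ThinA A) {N : ℕ} {c c' : PCfg M.Q H Γ}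
    {x : SCfg (thinS A M).Q H (Fin (Nat.card σ)) Γ}
    (hP : RelS A M w c x) (hs : M.Step w c c') (hN : c'.st.length < N) :
    ∃ x', (thinS A M).Step N w x x' ∧ RelS A M w c' x' := by
  obtain ⟨t, ht, rfl⟩ := hs
  obtain ⟨u, hu⟩ := exists_cor hT hP t
  have h1 := rel_next hT hP ht hu
  refine ⟨_, ⟨u, ⟨t, ?_, hu⟩, ?_, rfl⟩, h1⟩
  · rw [rel_top hT hP, hP.2.1, hP.2.2.1]
    exact ht
  · intro j hj
    have h2 := rel_cnt h1 j
    simp only [hj, Dir.cmove] at h2 hN
    omega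

theorem thinS_sim' (hT : ThinA A) {N : ℕ} {c : PCfg M.Q H Γ}
    {x x' : SCfg (thinS A M).Q H (Fin (Nat.card σ)) Γ}
    (hP : RelS A M w c x) (hs : (thinS A M).Step N w x x') :
    ∃ c', M.Step w c c' ∧ RelS A M w c' x' := by
  obtain ⟨u, ⟨t, ht, hu⟩, _, rfl⟩ := hs
  rw [rel_top hT hP, hP.2.1, hP.2.2.1] at ht
  exact ⟨_, ⟨t, ht, rfl⟩, rel_next hT hP ht hu⟩

/-- at a good content the store of the simulating machine is empty -/
theorem rel_empty {c : PCfg M.Q H Γ} {x : SCfg (thinS A M).Q H (Fin (Nat.card σ)) Γ}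
    (hP : RelS A M w c x) (hg : Good A c.st) : x.st = [] := by
  obtain ⟨_, _, _, st0, h3, _, hr, _, _⟩ := hP
  rcases hr with h | ⟨y0, g, h1, h2⟩
  · exact h
  · exfalso
    apply h2
    intro st' hst'
    refine hg st' (hst'.trans ?_)
    rw [h3, h1]
    exact ⟨y0, by simp⟩

/-! ### The pushdown automaton -/

/-- the alternating pushdown automaton -/
noncomputable def thinP (A : DFA Γ σ) (M : APDA α H Γ) (c : ℕ) :
    APDA α (H ⊕ Fin (Nat.card σ) × Fin c) Γ where
  toPDA := (thinS A M).toPDA c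
  U := {q | q.1.1 ∈ M.U}

/-- The simulation relation. -/
def RelP (A : DFA Γ σ) (M : APDA α H Γ) (e : ℕ) (w : List α) (c : PCfg M.Q H Γ)
    (y : PCfg (thinP A M (e + 1)).Q (H ⊕ Fin (Nat.card σ) × Fin (e + 1)) Γ) : Prop :=
  (∃ t j, Run (M.Step w) (fun c => c.q ∈ M.U) M.start t j c) ∧
    ∃ x, RelS A M w c x ∧ y = (thinS A M).enc (e + 1) w x

variable {e : ℕ}

theorem relP_bound (hE : ∀ (t j : ℕ) (c : PCfg M.Q H Γ),
      Run (M.Step w) (fun c => c.q ∈ M.U) M.start t j c → t ≤ (w.length + 2) ^ e)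
    {c : PCfg M.Q H Γ} {x : SCfg (thinS A M).Q H (Fin (Nat.card σ)) Γ} {t j : ℕ}
    (hr : Run (M.Step w) (fun c => c.q ∈ M.U) M.start t j c) (hx : RelS A M w c x) :
    ∀ i, x.cnt i < (w.length + 2) ^ (e + 1) := by
  intro i
  have := rel_cnt hx i
  have h2 := run_len hr
  have h3 := hE _ _ _ hr
  have hlt := pow_lt_succ w e
  omega

theorem relP_forth (hT : ThinA A) (hE : ∀ (t j : ℕ) (c : PCfg M.Q H Γ),
      Run (M.Step w) (fun c => c.q ∈ M.U) M.start t j c → t ≤ (w.length + 2) ^ e)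
    {c c' : PCfg M.Q H Γ} {y : PCfg (thinP A M (e + 1)).Q _ Γ} (h : RelP A M e w c y)
    (hs : M.Step w c c') : ∃ y', (thinP A M (e + 1)).Step w y y' ∧ RelP A M e w c' y' := by
  obtain ⟨⟨t, j, hr⟩, x, hx, rfl⟩ := h
  obtain ⟨j', hr'⟩ := hr.next hs
  have hlt := pow_lt_succ w e
  obtain ⟨x', h1, h2⟩ := thinS_sim (N := (w.length + 2) ^ (e + 1)) hT hx hs
    (by have := run_len hr'; have := hE _ _ _ hr'; omega)
  exact ⟨_, ((thinS A M).step_enc (e + 1) w x (relP_bound hE hr hx) _).2 ⟨x', h1, rfl⟩,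
    ⟨_, _, hr'⟩, x', h2, rfl⟩

theorem relP_back (hT : ThinA A) (hE : ∀ (t j : ℕ) (c : PCfg M.Q H Γ),
      Run (M.Step w) (fun c => c.q ∈ M.U) M.start t j c → t ≤ (w.length + 2) ^ e)
    {c : PCfg M.Q H Γ} {y y' : PCfg (thinP A M (e + 1)).Q _ Γ} (h : RelP A M e w c y)
    (hs : (thinP A M (e + 1)).Step w y y') : ∃ c', M.Step w c c' ∧ RelP A M e w c' y' := by
  obtain ⟨⟨t, j, hr⟩, x, hx, rfl⟩ := h
  obtain ⟨x', h1, rfl⟩ := ((thinS A M).step_enc (e + 1) w x (relP_bound hE hr hx) _).1 hs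
  obtain ⟨c', h2, h3⟩ := thinS_sim' hT hx h1
  obtain ⟨j', hr'⟩ := hr.next h2
  exact ⟨c', h2, ⟨_, _, hr'⟩, x', h3, rfl⟩

theorem relP_q {c : PCfg M.Q H Γ} {y : PCfg (thinP A M (e + 1)).Q _ Γ}
    (h : RelP A M e w c y) : y.q.1.1 = c.q := by
  obtain ⟨_, x, hx, rfl⟩ := h
  exact hx.2.1

theorem thinP_sim (hT : ThinA A) (hE : ∀ (t j : ℕ) (c : PCfg M.Q H Γ),
      Run (M.Step w) (fun c => c.q ∈ M.U) M.start t j c → t ≤ (w.length + 2) ^ e) :
    ASim (M.Step w) (fun c => c.q ∈ M.U) (fun c => c.q ∈ M.acc)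
      ((thinP A M (e + 1)).Step w) (fun c => c.q ∈ (thinP A M (e + 1)).U)
      (fun c => c.q ∈ (thinP A M (e + 1)).acc) (RelP A M e w) (fun _ => True)
      (fun _ => 0) 0 := by
  refine bisim _ ?_ ?_ ?_ ?_
  · intro c y h
    change _ ↔ y.q.1.1 ∈ M.U
    rw [relP_q h]
  · intro c y h
    change _ ↔ y.q.1.1 ∈ M.acc
    rw [relP_q h]
  · exact fun c y c' h hs => relP_forth hT hE h hs
  · exact fun c y y' h hs => relP_back hT hE h hs

theorem relP_start (h0 : A.start ∈ A.accept) :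
    RelP A M e w M.start (thinP A M (e + 1)).start := by
  refine ⟨⟨0, 0, .start⟩, ⟨(thinS A M).init, fun _ => 0, fun _ => 0, []⟩,
    ⟨⟨0, rfl⟩, rfl, rfl, [], rfl, ?_, Or.inl rfl, rfl, ?_⟩, ?_⟩
  · intro st' hst'
    have : st' = [] := List.suffix_nil.1 hst'
    subst this
    exact h0
  · funext j
    have := cnts_le (A := A) ([] : List Γ) j
    simp only [List.length_nil, Nat.le_zero] at this
    exact this.symm
  · refine PCfg.ext ?_ ?_ rfl
    · change ((thinS A M).init, fun _ _ => true) = _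
      simp only [SCM.enc, dirs_zero]
    · funext h
      cases h with
      | inl h => rfl
      | inr z => exact (tup_zero _ _ _).symm

/-- alternations with the empty store -/
theorem thinP_alt (hT : ThinA A) (h0 : A.start ∈ A.accept)
    (hE : ∀ (w : List α) (t j : ℕ) (c : PCfg M.Q H Γ),
      Run (M.Step w) (fun c => c.q ∈ M.U) M.start t j c → t ≤ (w.length + 2) ^ e)
    {R : Set (List Γ)} (hM : AltContents M R) (hR : ∀ st : List Γ, st.reverse ∈ R → Good A st) :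
    AltContents (thinP A M (e + 1)) {[]} := by
  intro w y y' hy hs hU
  rw [PDA.reach_iff] at hy
  obtain ⟨c, h1, h2⟩ := simulate (s := M.Step w) (fun y c => RelP A M e w c y)
    (fun a b a' hP hs => relP_back hT (hE w) hP hs) (relP_start h0) hy
  obtain ⟨c', h3, h4⟩ := relP_back hT (hE w) h2 hs
  have h5 := hM w c c' ((PDA.reach_iff _ _ _).2 h1) h3 (by
    intro h
    apply hU
    change y.q.1.1 ∈ M.U ↔ y'.q.1.1 ∈ M.U
    rw [relP_q h2, relP_q h4]
    exact h)
  obtain ⟨_, x, hx, rfl⟩ := h2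
  have h6 := rel_empty hx (hR _ h5)
  change x.st.reverse = []
  rw [h6]
  rfl

/-- **Thin contents at the alternations.** -/
theorem thin_at {m : ℕ} {M : APDA α (Fin m) Γ} (hT : ThinA A) (h0 : A.start ∈ A.accept) {k : ℕ}
    (hS : M.Sig k) {R : Set (List Γ)} (hM : AltContents M R)
    (hR : ∀ st : List Γ, st.reverse ∈ R → Good A st) : M.altLang ∈ sigEmpty k α := by
  obtain ⟨hi, e, he⟩ := hS
  have hE : ∀ (w : List α) (t j : ℕ) (c : PCfg M.Q (Fin m) Γ),
      Run (M.Step w) (fun c => c.q ∈ M.U) M.start t j c → t ≤ (w.length + 2) ^ e :=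
    fun w t j c h => (he w t j c h).1
  have hsim := fun w => thinP_sim (e := e) hT (hE w)
  obtain ⟨m', ⟨eq⟩⟩ := Finite.exists_equiv_fin (Fin m ⊕ Fin (Nat.card σ) × Fin (e + 1))
  refine ⟨m', Γ, inferInstance, reP (thinP A M (e + 1)) eq, reP_sig _ _ ⟨hi, e, ?_⟩,
    reP_alt _ _ (thinP_alt hT h0 hE hM hR), ?_⟩
  · intro w t j x hx
    obtain ⟨t', a, h1, _, h3⟩ := (hsim w).run (relP_start h0) le_rfl hx
    have := he w t' j a h1
    exact ⟨by omega, this.2⟩
  · rw [reP_lang]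
    ext w
    exact ((hsim w).iff_acc (relP_start h0)).symm

end sim

end Pool.Agent.V8H47.ALC
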